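import Pool.Agent.PFC.StmtsB4b

/-! QRE: `S ⊗ S^op` has the trivial summand. -/

set_option autoImplicit false

open scoped BigOperators TensorProduct

noncomputable section

namespace Pool.Agent.PFC.H72

open Pool.Agent.PFC MulOpposite

section

variable {F A : Type} [Field F] [Ring A] [Algebra F A] {n : ℕ}
  (e : A ≃ₐ[F] Matrix (Fin n) (Fin n) F)

/-- matrix units -/
def mu (k l : Fin n) : A := e.symm (Matrix.single k l 1)

theorem mu_mul (k l p q : Fin n) : mu e k l * mu e p q = if l = p then mu e k q else 0 := by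
  unfold mu
  rw [← map_mul]
  split_ifs with h
  · subst h
    rw [Matrix.single_mul_single_same, one_mul]
  · rw [Matrix.single_mul_single_of_ne _ _ _ _ h, map_zero]

theorem mu_sum (a : A) : a = ∑ p, ∑ q, (e a p q) • mu e p q := by
  apply e.injective
  conv_lhs => rw [Matrix.matrix_eq_sum_single (e a)]
  rw [map_sum]
  refine Finset.sum_congr rfl fun p _ => ?_
  rw [map_sum]
  refine Finset.sum_congr rfl fun q _ => ?_
  rw [map_smul, mu, AlgEquiv.apply_symm_apply, Matrix.smul_single, smul_eq_mul, mul_one]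

/-- the Casimir element -/
def p0 : A ⊗[F] Aᵐᵒᵖ := ∑ k, ∑ l, mu e k l ⊗ₜ[F] op (mu e l k)

theorem ext_of {N : Type} [AddCommGroup N] [Module F N] (f g : A →ₗ[F] N)
    (h : ∀ p q, f (mu e p q) = g (mu e p q)) : f = g := by
  ext a
  rw [mu_sum e a]
  simp only [map_sum, map_smul, h]

theorem left_cas (a : A) : (a ⊗ₜ[F] (1 : Aᵐᵒᵖ)) * p0 e = ((1 : A) ⊗ₜ[F] op a) * p0 e := by
  let f : A →ₗ[F] A ⊗[F] Aᵐᵒᵖ :=
    (LinearMap.mulRight F (p0 e)) ∘ₗ ((TensorProduct.mk F A Aᵐᵒᵖ).flip 1)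
  let g : A →ₗ[F] A ⊗[F] Aᵐᵒᵖ :=
    (LinearMap.mulRight F (p0 e)) ∘ₗ ((TensorProduct.mk F A Aᵐᵒᵖ) 1) ∘ₗ
      (opLinearEquiv F : A ≃ₗ[F] Aᵐᵒᵖ).toLinearMap
  have h : f = g := by
    refine ext_of e f g fun p q => ?_
    show (mu e p q ⊗ₜ[F] (1 : Aᵐᵒᵖ)) * p0 e = ((1 : A) ⊗ₜ[F] op (mu e p q)) * p0 e
    unfold p0
    simp only [Finset.mul_sum, Algebra.TensorProduct.tmul_mul_tmul, one_mul, ← op_mul, mu_mul]
    rw [Finset.sum_eq_single q]
    · rw [Finset.sum_eq_single p (f := fun k => ∑ l, mu e k l ⊗ₜ[F] op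
        (if k = p then mu e l q else 0))]
      · simp
      · intro k _ hk
        simp [hk]
      · simp
    · intro k _ hk
      simp [Ne.symm hk]
    · simp
  exact LinearMap.congr_fun h a

theorem right_cas (a : A) : p0 e * (a ⊗ₜ[F] (1 : Aᵐᵒᵖ)) = p0 e * ((1 : A) ⊗ₜ[F] op a) := by
  let f : A →ₗ[F] A ⊗[F] Aᵐᵒᵖ :=
    (LinearMap.mulLeft F (p0 e)) ∘ₗ ((TensorProduct.mk F A Aᵐᵒᵖ).flip 1)
  let g : A →ₗ[F] A ⊗[F] Aᵐᵒᵖ :=
    (LinearMap.mulLeft F (p0 e)) ∘ₗ ((TensorProduct.mk F A Aᵐᵒᵖ) 1) ∘ₗ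
      (opLinearEquiv F : A ≃ₗ[F] Aᵐᵒᵖ).toLinearMap
  have h : f = g := by
    refine ext_of e f g fun p q => ?_
    show p0 e * (mu e p q ⊗ₜ[F] (1 : Aᵐᵒᵖ)) = p0 e * ((1 : A) ⊗ₜ[F] op (mu e p q))
    unfold p0
    simp only [Finset.sum_mul, Algebra.TensorProduct.tmul_mul_tmul, mul_one, ← op_mul, mu_mul]
    refine Finset.sum_congr rfl fun k _ => ?_
    rw [Finset.sum_eq_single p]
    · rw [Finset.sum_eq_single q (f := fun l => mu e k l ⊗ₜ[F] op
        (if q = l then mu e p k else 0))]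
      · simp
      · intro l _ hl
        simp [Ne.symm hl]
      · simp
    · intro l _ hl
      simp [hl]
    · simp
  exact LinearMap.congr_fun h a

/-- the trace -/
def trA : A →ₗ[F] F := (Matrix.traceLinearMap (Fin n) F F) ∘ₗ e.toLinearMap

theorem trA_mu (p q : Fin n) : trA e (mu e p q) = if p = q then 1 else 0 := by
  show Matrix.trace (e (mu e p q)) = _
  rw [mu, AlgEquiv.apply_symm_apply]
  split_ifs with h
  · subst h
    simp
  · exact Matrix.trace_single_eq_of_ne _ _ _ h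

theorem mid (b : A) : p0 e * ((1 : A) ⊗ₜ[F] op b) * p0 e = trA e b • p0 e := by
  let f : A →ₗ[F] A ⊗[F] Aᵐᵒᵖ :=
    (LinearMap.mulRight F (p0 e)) ∘ₗ (LinearMap.mulLeft F (p0 e)) ∘ₗ
      ((TensorProduct.mk F A Aᵐᵒᵖ) 1) ∘ₗ (opLinearEquiv F : A ≃ₗ[F] Aᵐᵒᵖ).toLinearMap
  let g : A →ₗ[F] A ⊗[F] Aᵐᵒᵖ := (trA e).smulRight (p0 e)
  have h : f = g := by
    refine ext_of e f g fun p q => ?_
    show p0 e * ((1 : A) ⊗ₜ[F] op (mu e p q)) * p0 e = trA e (mu e p q) • p0 e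
    rw [trA_mu]
    have h1 : p0 e * ((1 : A) ⊗ₜ[F] op (mu e p q)) = ∑ k, mu e k q ⊗ₜ[F] op (mu e p k) := by
      unfold p0
      simp only [Finset.sum_mul, Algebra.TensorProduct.tmul_mul_tmul, mul_one, ← op_mul, mu_mul]
      refine Finset.sum_congr rfl fun k _ => ?_
      rw [Finset.sum_eq_single q (f := fun l => mu e k l ⊗ₜ[F] op
        (if q = l then mu e p k else 0))]
      · simp
      · intro l _ hl
        simp [Ne.symm hl]
      · simp
    rw [h1]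
    unfold p0
    simp only [Finset.sum_mul, Finset.mul_sum, Algebra.TensorProduct.tmul_mul_tmul, ← op_mul,
      mu_mul]
    split_ifs with hpq
    · subst hpq
      rw [one_smul, Finset.sum_eq_single p]
      · simp only [if_true]
        rw [Finset.sum_comm]
      · intro k _ hk
        refine Finset.sum_eq_zero fun x _ => Finset.sum_eq_zero fun i _ => ?_
        rw [if_neg hk]
        simp
      · simp
    · rw [zero_smul]
      refine Finset.sum_eq_zero fun k _ => Finset.sum_eq_zero fun i _ =>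
        Finset.sum_eq_zero fun l _ => ?_
      by_cases h2 : q = k
      · have h3 : ¬ k = p := fun h => hpq (by rw [← h, h2])
        rw [if_neg h3]
        simp
      · rw [if_neg h2]
        simp
  exact LinearMap.congr_fun h b

theorem mid' (a b : A) : p0 e * (a ⊗ₜ[F] op b) * p0 e = trA e (b * a) • p0 e := by
  have h1 : a ⊗ₜ[F] op b = (a ⊗ₜ[F] (1 : Aᵐᵒᵖ)) * ((1 : A) ⊗ₜ[F] op b) := by
    rw [Algebra.TensorProduct.tmul_mul_tmul, mul_one, one_mul]
  rw [h1, ← mul_assoc, right_cas, mul_assoc (p0 e), Algebra.TensorProduct.tmul_mul_tmul,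
    one_mul, ← op_mul, mid]

theorem p0_ne (hn : 0 < n) : p0 e ≠ 0 := by
  intro h
  let i0 : Fin n := ⟨0, hn⟩
  let g : A →ₗ[F] Aᵐᵒᵖ →ₗ[F] A :=
    LinearMap.mk₂ F (fun a b => a * mu e i0 i0 * b.unop)
      (fun a a' b => by simp [add_mul]) (fun c a b => by simp)
      (fun a b b' => by simp [mul_add]) (fun c a b => by simp)
  have h1 : TensorProduct.lift g (p0 e) = 1 := by
    unfold p0
    simp only [map_sum, TensorProduct.lift.tmul]
    have h2 : ∀ k l : Fin n, g (mu e k l) (op (mu e l k)) =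
        if l = i0 then mu e k k else 0 := by
      intro k l
      show mu e k l * mu e i0 i0 * mu e l k = _
      rw [mu_mul]
      split_ifs with h3
      · rw [h3, mu_mul, if_pos rfl]
      · rw [zero_mul]
    simp only [h2, Finset.sum_ite_eq', Finset.mem_univ, if_true]
    apply e.injective
    rw [map_sum, map_one]
    have h4 : ∀ k, e (mu e k k) = Matrix.single k k (1 : F) := fun k => by
      rw [mu, AlgEquiv.apply_symm_apply]
    simp only [h4]
    ext i j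
    rw [Matrix.sum_apply]
    by_cases hij : i = j
    · subst hij
      rw [Finset.sum_eq_single i]
      · simp
      · intro k _ hk
        simp [hk]
      · simp
    · rw [Matrix.one_apply_ne hij]
      refine Finset.sum_eq_zero fun k _ => ?_
      rw [Matrix.single_apply, if_neg]
      rintro ⟨rfl, h6⟩
      exact hij h6
  rw [h, map_zero] at h1
  have h5 := congrArg e h1
  rw [map_zero, map_one] at h5
  have h6 := congrFun (congrFun h5 i0) i0
  rw [Matrix.zero_apply, Matrix.one_apply_eq] at h6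
  exact zero_ne_one h6

end

theorem qre : QreStmt := by
  intro F V _ _ S hS hd
  obtain ⟨n, hn, ⟨e⟩⟩ := hS
  have hnF : (n : F) ≠ 0 := by
    intro h
    apply hd
    have h1 : Module.finrank F S.A = n * n := by
      rw [e.toLinearEquiv.finrank_eq, Module.finrank_matrix]
      simp
    rw [h1, Nat.cast_mul, h, mul_zero]
  have htr1 : trA e (1 : S.A) = n := by
    show Matrix.trace (e 1) = n
    rw [map_one, Matrix.trace_one, Fintype.card_fin]
  let π : S.A ⊗[F] S.Aᵐᵒᵖ := (n : F)⁻¹ • p0 e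
  have hι : ∀ v, (S.tens S.op).ι v = (S.ι v ⊗ₜ[F] op (S.ι v⁻¹) : S.A ⊗[F] S.Aᵐᵒᵖ) := fun _ => rfl
  have hinv : ∀ v, S.ι v * S.ι v⁻¹ = 1 := fun v => by rw [← map_mul, mul_inv_cancel, map_one]
  have hinv' : ∀ v, S.ι v⁻¹ * S.ι v = 1 := fun v => by rw [← map_mul, inv_mul_cancel, map_one]
  have hl : ∀ v, (S.ι v ⊗ₜ[F] op (S.ι v⁻¹) : S.A ⊗[F] S.Aᵐᵒᵖ) * p0 e = p0 e := by
    intro v
    have h1 : (S.ι v ⊗ₜ[F] op (S.ι v⁻¹) : S.A ⊗[F] S.Aᵐᵒᵖ) =
        ((1 : S.A) ⊗ₜ[F] op (S.ι v⁻¹)) * (S.ι v ⊗ₜ[F] (1 : S.Aᵐᵒᵖ)) := by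
      rw [Algebra.TensorProduct.tmul_mul_tmul, mul_one, one_mul]
    rw [h1, mul_assoc, left_cas, ← mul_assoc, Algebra.TensorProduct.tmul_mul_tmul, one_mul,
      ← op_mul, hinv, op_one, ← Algebra.TensorProduct.one_def, one_mul]
  have hr : ∀ v, p0 e * (S.ι v ⊗ₜ[F] op (S.ι v⁻¹) : S.A ⊗[F] S.Aᵐᵒᵖ) = p0 e := by
    intro v
    have h1 : (S.ι v ⊗ₜ[F] op (S.ι v⁻¹) : S.A ⊗[F] S.Aᵐᵒᵖ) =
        (S.ι v ⊗ₜ[F] (1 : S.Aᵐᵒᵖ)) * ((1 : S.A) ⊗ₜ[F] op (S.ι v⁻¹)) := by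
      rw [Algebra.TensorProduct.tmul_mul_tmul, mul_one, one_mul]
    rw [h1, ← mul_assoc, right_cas, mul_assoc, Algebra.TensorProduct.tmul_mul_tmul, one_mul,
      ← op_mul, hinv', op_one, ← Algebra.TensorProduct.one_def, mul_one]
  refine ⟨π, ?_, ?_, ?_, ?_, ?_⟩
  · show π * π = π
    have h1 : p0 e * p0 e = (n : F) • p0 e := by
      have h2 := mid' e (1 : S.A) 1
      rw [op_one, ← Algebra.TensorProduct.one_def, mul_one, mul_one, htr1] at h2
      exact h2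
    show ((n : F)⁻¹ • p0 e) * ((n : F)⁻¹ • p0 e) = (n : F)⁻¹ • p0 e
    rw [smul_mul_assoc, mul_smul_comm, h1, smul_smul (n : F)⁻¹ (n : F), inv_mul_cancel₀ hnF,
      one_smul]
  · exact smul_ne_zero (inv_ne_zero hnF) (p0_ne e hn)
  · intro v
    rw [hι]
    show (S.ι v ⊗ₜ[F] op (S.ι v⁻¹) : S.A ⊗[F] S.Aᵐᵒᵖ) * ((n : F)⁻¹ • p0 e) = (n : F)⁻¹ • p0 e
    rw [mul_smul_comm, hl]
  · intro v
    rw [hι]
    show ((n : F)⁻¹ • p0 e) * (S.ι v ⊗ₜ[F] op (S.ι v⁻¹) : S.A ⊗[F] S.Aᵐᵒᵖ) = (n : F)⁻¹ • p0 e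
    rw [smul_mul_assoc, hr]
  · have key : ∀ a : S.A ⊗[F] S.Aᵐᵒᵖ, ∃ c : F, p0 e * a * p0 e = c • p0 e := by
      intro a
      induction a using TensorProduct.induction_on with
      | zero => exact ⟨0, by rw [mul_zero, zero_mul, zero_smul]⟩
      | tmul x y => exact ⟨trA e (y.unop * x), mid' e x y.unop⟩
      | add x y hx hy =>
        obtain ⟨c, hc⟩ := hx
        obtain ⟨c', hc'⟩ := hy
        exact ⟨c + c', by rw [mul_add, add_mul, hc, hc', add_smul]⟩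
    change ∀ a : S.A ⊗[F] S.Aᵐᵒᵖ, ∃ c : F, π * a * π = c • π
    intro a
    obtain ⟨c, hc⟩ := key a
    refine ⟨(n : F)⁻¹ * c, ?_⟩
    show ((n : F)⁻¹ • p0 e) * a * ((n : F)⁻¹ • p0 e) = ((n : F)⁻¹ * c) • ((n : F)⁻¹ • p0 e)
    rw [smul_mul_assoc, smul_mul_assoc, mul_smul_comm, hc, smul_smul, smul_smul, smul_smul]
    congr 1
    ring

end Pool.Agent.PFC.H72
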