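import Pool.Agent.PFC.StmtsB5a

/-! CPS: the frame of the matrix algebra. -/

set_option autoImplicit false

open scoped BigOperators TensorProduct

noncomputable section

namespace Pool.Agent.PFC.B5a.H72

open Pool.Agent.PFC Pool.Agent.PFC.B5a

section

variable {F V : Type} [Field F] [CommGroup V] {n : ℕ}

/-- `x ↦ x ⊗ 1` -/
def s0 : Matrix (Fin n) (Fin n) F →ₐ[F] Matrix (Fin n) (Fin n) (MonoidAlgebra F V) :=
  (Algebra.ofId F (MonoidAlgebra F V)).mapMatrix

/-- the coefficient at one -/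
def co : MonoidAlgebra F V →ₗ[F] F where
  toFun y := y.coeff 1
  map_add' x y := by simp
  map_smul' a y := by simp

/-- the coefficients at one of the entries -/
def r0 : Matrix (Fin n) (Fin n) (MonoidAlgebra F V) →ₗ[F] Matrix (Fin n) (Fin n) F where
  toFun Y := Matrix.of fun i j => co (Y i j)
  map_add' X Y := by ext i j; simp
  map_smul' a Y := by ext i j; simp

theorem s0_apply (x : Matrix (Fin n) (Fin n) F) (i j : Fin n) :
    (s0 x : Matrix (Fin n) (Fin n) (MonoidAlgebra F V)) i j = MonoidAlgebra.single 1 (x i j) := by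
  rfl

theorem r0_apply (Y : Matrix (Fin n) (Fin n) (MonoidAlgebra F V)) (i j : Fin n) :
    r0 Y i j = co (Y i j) := rfl

theorem co_single_mul (a : F) (y : MonoidAlgebra F V) :
    co (MonoidAlgebra.single 1 a * y) = a * co y := by
  show (MonoidAlgebra.single 1 a * y).coeff 1 = a * y.coeff 1
  rw [MonoidAlgebra.coeff_single_mul_apply, inv_one, one_mul]

theorem r0_s0 (x : Matrix (Fin n) (Fin n) F) :
    r0 (s0 x : Matrix (Fin n) (Fin n) (MonoidAlgebra F V)) = x := by
  ext i j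
  rw [r0_apply, s0_apply]
  show (MonoidAlgebra.single 1 (x i j)).coeff 1 = x i j
  simp

theorem r0_s0_mul (x : Matrix (Fin n) (Fin n) F)
    (Y : Matrix (Fin n) (Fin n) (MonoidAlgebra F V)) : r0 (s0 x * Y) = x * r0 Y := by
  ext i j
  rw [r0_apply, Matrix.mul_apply, Matrix.mul_apply, map_sum]
  refine Finset.sum_congr rfl fun k _ => ?_
  rw [s0_apply, co_single_mul, r0_apply]

theorem r0_mul_s0 (x : Matrix (Fin n) (Fin n) F)
    (Y : Matrix (Fin n) (Fin n) (MonoidAlgebra F V)) : r0 (Y * s0 x) = r0 Y * x := by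
  ext i j
  rw [r0_apply, Matrix.mul_apply, Matrix.mul_apply, map_sum]
  refine Finset.sum_congr rfl fun k _ => ?_
  rw [s0_apply, mul_comm, co_single_mul, r0_apply, mul_comm]

end

theorem cps : CpsStmt := by
  intro F V B _ _ _ _ _ β n π f X hL hbij ⟨Ω, hΩ, hact, b, c, hfr, _⟩
  obtain ⟨hb, hc, hsum⟩ := hfr
  let τ : V →* Matrix (Fin n) (Fin n) F := (π : B →* Matrix (Fin n) (Fin n) F).comp β
  have hfβ : ∀ u : V, f (β u) = (MonoidAlgebra.single u (1 : F)) •
      (s0 (τ u) : Matrix (Fin n) (Fin n) (MonoidAlgebra F V)) := by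
    intro u
    ext1 i j
    rw [hL.grp, Matrix.smul_apply, s0_apply, smul_eq_mul, MonoidAlgebra.single_mul_single,
      mul_one, one_mul]
    rfl
  have hone : ∀ u : V, (MonoidAlgebra.single u (1 : F)) * MonoidAlgebra.single u⁻¹ 1 = 1 := by
    intro u
    rw [MonoidAlgebra.single_mul_single, mul_inv_cancel, one_mul]
    rfl
  have hconj : ∀ (u : V) (Y : Matrix (Fin n) (Fin n) (MonoidAlgebra F V)),
      f (β u) * (Y * f (β u⁻¹)) = s0 (τ u) * (Y * s0 (τ u⁻¹)) := by
    intro u Y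
    rw [hfβ, hfβ, Matrix.mul_smul, Matrix.mul_smul, Matrix.smul_mul, smul_smul, mul_comm, hone,
      one_smul]
  let e : B ≃ₐ[F] Matrix (Fin n) (Fin n) (MonoidAlgebra F V) := AlgEquiv.ofBijective f hbij
  have hfe : ∀ Y, f (e.symm Y) = Y := fun Y => e.apply_symm_apply Y
  let s : Matrix (Fin n) (Fin n) F →ₗ[F] B := e.symm.toLinearMap ∘ₗ s0.toLinearMap
  let r : B →ₗ[F] Matrix (Fin n) (Fin n) F := r0 ∘ₗ f.toLinearMap
  have hfs : ∀ x, f (s x) = s0 x := fun x => hfe _
  have hrs : ∀ x, r (s x) = x := by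
    intro x
    show r0 (f (s x)) = x
    rw [hfs, r0_s0]
  have hr : ∀ (u : V) (x : B), r (bi F β (u, u) x) = cj F τ u (r x) := by
    intro u x
    show r0 (f (β u * (x * β u⁻¹))) = τ u * (r0 (f x) * τ u⁻¹)
    rw [map_mul f, map_mul f, hconj, r0_s0_mul, r0_mul_s0]
  have hs : ∀ (u : V) (x : Matrix (Fin n) (Fin n) F), s (cj F τ u x) = bi F β (u, u) (s x) := by
    intro u x
    apply hbij.1
    show f (s (τ u * (x * τ u⁻¹))) = f (β u * (s x * β u⁻¹))
    rw [hfs, map_mul f, map_mul f, hfs, hconj, map_mul, map_mul]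
  letI act : MulAction V Ω := MulAction.compHom Ω ((MonoidHom.id V).prod (MonoidHom.id V))
  have hsm : ∀ (u : V) (ω : Ω), u • ω = ((u, u) : V × V) • ω := fun u ω => rfl
  refine ⟨Ω, hΩ, act, fun ω => r (b ω), fun ω => (c ω).comp s, ⟨?_, ?_, ?_⟩, fun _ => trivial⟩
  · intro u ω
    show r (b (((u, u) : V × V) • ω)) = cj F τ u (r (b ω))
    rw [hb, hr]
  · intro u ω m
    show c (((u, u) : V × V) • ω) (s (cj F τ u m)) = c ω (s m)
    rw [hs, hc]
  · intro m
    show ∑ ω, c ω (s m) • r (b ω) = m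
    calc ∑ ω, c ω (s m) • r (b ω) = r (∑ ω, c ω (s m) • b ω) := by
          rw [map_sum]
          exact Finset.sum_congr rfl fun ω _ => (map_smul r _ _).symm
      _ = m := by rw [hsum, hrs]

end Pool.Agent.PFC.B5a.H72
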