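import Pool.Agent.PFC.StmtsB5a

/-! LFT: the lifting theorem. -/

set_option autoImplicit false

open scoped BigOperators TensorProduct

noncomputable section

namespace Pool.Agent.PFC.B5a.H72

open Pool.Agent.PFC Pool.Agent.PFC.B5a

theorem lft : LftStmt := by
  intro homz hmuv hnil hkwa hkwb ℓ _ F V B _ _ _ _ _ _ β n π hP hsep hps
  obtain ⟨μ, hμ1, hμ2⟩ := hmuv homz F V B β hps
  obtain ⟨f0, hL0, h10, hl0, hr0⟩ := hkwa hnil ℓ F V B β n π μ hP hμ1 hμ2
  have key : ∀ k : ℕ, 1 ≤ k → ∃ f : B →ₗ[F] Matrix (Fin n) (Fin n) (MonoidAlgebra F V),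
      Lf F β n π f ∧ f 1 = 1 ∧
      (∀ u x, f (β u * x) = f (β u) * f x) ∧ (∀ u x, f (x * β u) = f x * f (β u)) ∧
      ∀ x y i j, (f (x * y) - f x * f y) i j ∈ RingHom.ker (au F V) ^ k := by
    intro k hk
    induction k, hk using Nat.le_induction with
    | base =>
      refine ⟨f0, hL0, h10, hl0, hr0, fun x y i j => ?_⟩
      rw [pow_one, RingHom.mem_ker, Matrix.sub_apply, Matrix.mul_apply, map_sub, map_sum,
        hL0.aug, map_mul, Matrix.mul_apply, sub_eq_zero]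
      refine Finset.sum_congr rfl fun k _ => ?_
      rw [map_mul, hL0.aug, hL0.aug]
    | succ k hk ih =>
      obtain ⟨f, hL, h1, hl, hr, hd⟩ := ih
      exact hkwb F V B β n π k f hsep hk hL h1 hl hr hd
  obtain ⟨N, hN⟩ := hnil ℓ F V hP
  obtain ⟨f, hL, h1, -, -, hd⟩ := key (N + 1) (by omega)
  have hN1 : RingHom.ker (au F V) ^ (N + 1) = ⊥ := by
    rw [pow_succ, hN, Ideal.bot_mul]
  have hmul : ∀ x y, f (x * y) = f x * f y := by
    intro x y
    ext1 i j
    have h := hd x y i j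
    rw [hN1, Ideal.mem_bot, Matrix.sub_apply, sub_eq_zero] at h
    exact h
  refine ⟨AlgHom.ofLinearMap f h1 hmul, ?_⟩
  exact ⟨fun x i j => hL.aug x i j, fun u i j => hL.grp u i j⟩

end Pool.Agent.PFC.B5a.H72
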