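import Pool.Agent.PFC.StmtsB2

/-! NHP: the kernel of `x^(Q-1)` on a Higman projective representation.  QGN: `QQ` commutes with
the generic fibre. -/

set_option autoImplicit false

noncomputable section

namespace Pool.Agent.PFC.B2.H72

open Pool.Agent.PFC.B1 Pool.Agent.PFC.B2

/-- a vector space over the fraction field is an injective module -/
theorem baer_of_frac (R L P : Type) [CommRing R] [IsDomain R] [Field L] [Algebra R L]
    [IsFractionRing R L] [AddCommGroup P] [Module L P] [Module R P] [IsScalarTower R L P] :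
    Module.Baer R P := by
  intro I g
  by_cases hI : I = ⊥
  · refine ⟨0, fun x hx => ?_⟩
    have hx0 : x = 0 := by
      rw [hI] at hx
      exact hx
    subst hx0
    have h1 : g ⟨0, hx⟩ = 0 := map_zero g
    exact h1.symm
  · obtain ⟨r, hr, hr0⟩ := Submodule.exists_mem_ne_zero_of_ne_bot hI
    have hr1 : algebraMap R L r ≠ 0 := by
      intro h
      exact hr0 ((IsFractionRing.injective R L) (by rw [h, map_zero]))
    refine ⟨LinearMap.toSpanSingleton R P ((algebraMap R L r)⁻¹ • g ⟨r, hr⟩), fun x hx => ?_⟩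
    rw [LinearMap.toSpanSingleton_apply]
    have h1 : r • g ⟨x, hx⟩ = x • g ⟨r, hr⟩ := by
      rw [← map_smul, ← map_smul]
      congr 1
      apply Subtype.ext
      show r * x = x * r
      ring
    have h2 : g ⟨x, hx⟩ = (algebraMap R L r)⁻¹ • (r • g ⟨x, hx⟩) := by
      rw [← algebraMap_smul L r (g ⟨x, hx⟩), smul_smul, inv_mul_cancel₀ hr1, one_smul]
    rw [h2, h1, ← algebraMap_smul L x (g ⟨r, hr⟩),
      ← algebraMap_smul L x ((algebraMap R L r)⁻¹ • g ⟨r, hr⟩), smul_smul, smul_smul, mul_comm]

theorem nhp (hxir : XirStmt) : NhpStmt := by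
  have part1 : ∀ (F Γ H I L P : Type) [Field F] [Ring Γ] [Algebra (PowerSeries F) Γ] [Ring H]
    [Algebra (PowerSeries F) H] [Fintype I] [Field L] [Algebra (PowerSeries F) L]
    [IsFractionRing (PowerSeries F) L] [AddCommGroup P] [Module L P]
    (c : FS (PowerSeries F) Γ I) (nk : Nk F Γ H) (π : Rp (PowerSeries F) Γ L P), HP c π →
    ∀ y, π.ρ (nk.x ^ (nk.Q - 1)) y = 0 → ∃ y', y = π.ρ nk.x y' := by
    intro F Γ H I L P _ _ _ _ _ _ _ _ _ _ _ c nk π hHP y hy
    obtain ⟨a, ha⟩ := hHP
    letI : Module (PowerSeries F) P := Module.compHom P (algebraMap (PowerSeries F) L)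
    haveI : IsScalarTower (PowerSeries F) L P := ⟨fun r l p => by
      show (r • l) • p = algebraMap (PowerSeries F) L r • (l • p)
      rw [Algebra.smul_def, mul_smul]⟩
    have hsm : ∀ (r : PowerSeries F) (p : P), r • p = algebraMap (PowerSeries F) L r • p :=
      fun _ _ => rfl
    have hπ : ∀ (r : PowerSeries F) (γ : Γ) (p : P), π.ρ (r • γ) p = r • π.ρ γ p := by
      intro r γ p
      rw [Algebra.smul_def, map_mul, Module.End.mul_apply, π.sc, hsm]
    let φ : Γ →ₗ[PowerSeries F] P :=
      { toFun := fun γ => a (π.ρ γ y)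
        map_add' := fun γ γ' => by
          rw [map_add, LinearMap.add_apply, map_add]
        map_smul' := fun r γ => by
          rw [hπ, hsm, map_smul, RingHom.id_apply, hsm] }
    let rx : Γ →ₗ[PowerSeries F] Γ := LinearMap.mulRight (PowerSeries F) nk.x
    have hker : LinearMap.ker rx ≤ LinearMap.ker φ := by
      intro γ hγ
      have h1 : γ * nk.x = 0 := hγ
      obtain ⟨n, b, hb⟩ := nk.ann γ h1
      have h2 : φ ((PowerSeries.X : PowerSeries F) ^ n • γ) = 0 := by
        show a (π.ρ _ y) = 0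
        rw [hb, map_mul, Module.End.mul_apply, hy, map_zero, map_zero]
      rw [map_smul, hsm] at h2
      rcases smul_eq_zero.1 h2 with h3 | h3
      · exfalso
        have h4 : (PowerSeries.X : PowerSeries F) ^ n = 0 :=
          (IsFractionRing.injective (PowerSeries F) L) (by rw [h3, map_zero])
        exact pow_ne_zero n PowerSeries.X_ne_zero h4
      · exact h3
    obtain ⟨h, hh⟩ := (baer_of_frac (PowerSeries F) L P).extension_property
      ((LinearMap.ker rx).liftQ rx le_rfl)
      (by
        rw [← LinearMap.ker_eq_bot]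
        exact Submodule.ker_liftQ_eq_bot _ _ _ le_rfl)
      ((LinearMap.ker rx).liftQ φ hker)
    have hh' : ∀ γ : Γ, h (γ * nk.x) = a (π.ρ γ y) := by
      intro γ
      have h1 := LinearMap.congr_fun hh (Submodule.Quotient.mk γ)
      exact h1
    refine ⟨∑ j, π.ρ (c.b j) (h (c.b' j)), ?_⟩
    have hy1 : y = ∑ i, π.ρ (c.b i) (a (π.ρ (c.b' i) y)) := by
      have h1 := LinearMap.congr_fun ha y
      unfold FS.tr at h1
      rw [LinearMap.sum_apply] at h1
      exact h1.symm
    have h2 : ∀ i, a (π.ρ (c.b' i) y) = ∑ j, c.lam (c.b' i * nk.x * c.b j) • h (c.b' j) := by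
      intro i
      rw [← hh', ← c.h2 (c.b' i * nk.x), map_sum]
      refine Finset.sum_congr rfl fun j _ => ?_
      rw [map_smul, c.h2]
    rw [map_sum]
    calc y = ∑ i, π.ρ (c.b i) (a (π.ρ (c.b' i) y)) := hy1
      _ = ∑ i, ∑ j, π.ρ (c.lam (c.b' i * nk.x * c.b j) • c.b i) (h (c.b' j)) := by
          refine Finset.sum_congr rfl fun i _ => ?_
          rw [h2, map_sum]
          refine Finset.sum_congr rfl fun j _ => ?_
          rw [hπ, hsm, map_smul, hsm]
      _ = ∑ j, ∑ i, π.ρ (c.lam (c.b' i * nk.x * c.b j) • c.b i) (h (c.b' j)) :=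
          Finset.sum_comm
      _ = ∑ j, π.ρ nk.x (π.ρ (c.b j) (h (c.b' j))) := by
          refine Finset.sum_congr rfl fun j _ => ?_
          have h3 : ∑ i, c.lam (c.b' i * nk.x * c.b j) • c.b i = nk.x * c.b j := by
            have h4 := c.h1 (nk.x * c.b j)
            simp only [← mul_assoc] at h4
            exact h4
          rw [← Module.End.mul_apply, ← map_mul, ← h3, map_sum, LinearMap.sum_apply]
  refine ⟨part1, ?_⟩
  intro F Γ H I L T P S _ _ _ _ _ _ _ _ _ _ _ _ _ _ _ c nk τ π σ g h hHP hirr hg hh t ht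
  obtain ⟨y', hy'⟩ := part1 F Γ H I L P c nk π hHP (g t) (by rw [← hg, ht, map_zero])
  rw [LinearMap.comp_apply, hy', hh]
  exact hxir F Γ H L S nk σ hirr _

theorem qgn : QgnStmt := by
  intro F Γ A' L T' T _ _ _ _ _ _ _ _ _ _ _ _ _ j τ' τ G
  have hlin : ∀ (f : QQ j τ) (r : PowerSeries F) (a : A'),
      f.1 (r • a) = algebraMap (PowerSeries F) L r • f.1 a := by
    intro f r a
    have h := f.2.2.1 (algebraMap (PowerSeries F) Γ r) a
    rw [j.commutes, ← Algebra.smul_def] at h
    rw [h, τ.sc]
  refine ⟨{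
    i :=
      { toFun := fun f => ⟨fun a => G.i (f.1 a), fun x y => by
          show G.i (f.1 (x + y)) = G.i (f.1 x) + G.i (f.1 y)
          rw [f.2.1, map_add], fun γ x => by
          show G.i (f.1 (j γ * x)) = τ.ρ (j γ) (G.i (f.1 x))
          rw [f.2.2.1, G.eqv], by
          show G.i (f.1 1) = 0
          rw [f.2.2.2, map_zero]⟩
        map_zero' := by
          apply Subtype.ext; funext x
          exact map_zero G.i
        map_add' := fun f g => by
          apply Subtype.ext; funext x
          exact map_add G.i _ _ }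
    inj := fun f g hfg => by
      apply Subtype.ext; funext x
      exact G.inj (congrFun (congrArg Subtype.val hfg) x)
    sm := fun r f => by
      apply Subtype.ext; funext x
      exact G.sm r (f.1 x)
    eqv := fun a f => by
      apply Subtype.ext; funext x
      show G.i (f.1 (x * a) - τ'.ρ x (f.1 a)) = G.i (f.1 (x * a)) - τ.ρ x (G.i (f.1 a))
      rw [map_sub, G.eqv]
    den := fun f => ?_ }⟩
  obtain ⟨s, hs⟩ := (Module.Finite.fg_top : (⊤ : Submodule (PowerSeries F) A').FG)
  -- a common denominator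
  have key : ∀ s : Finset A', ∃ r : PowerSeries F, algebraMap (PowerSeries F) L r ≠ 0 ∧
      ∀ a ∈ s, ∃ x, algebraMap (PowerSeries F) L r • f.1 a = G.i x := by
    classical
    intro s
    induction s using Finset.induction_on with
    | empty => exact ⟨1, by simp, by simp⟩
    | insert b s hb ih =>
      obtain ⟨r, hr, hr'⟩ := ih
      obtain ⟨r1, x1, hr1, hx1⟩ := G.den (f.1 b)
      refine ⟨r * r1, by rw [map_mul]; exact mul_ne_zero hr hr1, fun a ha => ?_⟩
      rcases Finset.mem_insert.1 ha with rfl | ha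
      · exact ⟨r • x1, by rw [map_mul, mul_smul, hx1, G.sm]⟩
      · obtain ⟨x, hx⟩ := hr' a ha
        exact ⟨r1 • x, by rw [map_mul, mul_comm, mul_smul, hx, G.sm]⟩
  obtain ⟨r, hr, hr'⟩ := key s
  have hall : ∀ a : A', ∃ x, algebraMap (PowerSeries F) L r • f.1 a = G.i x := by
    intro a
    have ha : a ∈ Submodule.span (PowerSeries F) (s : Set A') := by rw [hs]; trivial
    induction ha using Submodule.span_induction with
    | mem x hx => exact hr' x hx
    | zero =>
      refine ⟨0, ?_⟩
      have h := f.2.1 0 0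
      rw [add_zero] at h
      rw [left_eq_add.mp h, smul_zero, map_zero]
    | add x y _ _ hx hy =>
      obtain ⟨u, hu⟩ := hx
      obtain ⟨v, hv⟩ := hy
      exact ⟨u + v, by rw [f.2.1, smul_add, hu, hv, map_add]⟩
    | smul q x _ hx =>
      obtain ⟨u, hu⟩ := hx
      exact ⟨q • u, by rw [hlin, smul_comm, hu, G.sm]⟩
  choose f' hf' using hall
  refine ⟨r, ⟨f', fun x y => ?_, fun γ x => ?_, ?_⟩, hr, ?_⟩
  · apply G.inj
    rw [map_add, ← hf', ← hf', ← hf', f.2.1, smul_add]
  · apply G.inj
    rw [G.eqv, ← hf', ← hf', f.2.2.1, map_smul]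
  · apply G.inj
    rw [← hf', f.2.2.2, smul_zero, map_zero]
  · apply Subtype.ext; funext x
    exact hf' x

end Pool.Agent.PFC.B2.H72
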