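import Pool.Agent.PFC.StmtsB2

/-! RAD: ranks of idempotents are additive.  MUL: multiplicities exist. -/

set_option autoImplicit false

noncomputable section

namespace Pool.Agent.PFC.B2.H72

open Pool.Agent.PFC.B1 Pool.Agent.PFC.B2

theorem rad : RadStmt := by
  intro R A k M _ _ _ _ _ _ _ _ ρ W h e he
  let p : M →ₗ[k] M := ρ.ρ e
  have hpp : ∀ x, p (p x) = p x := by
    intro x
    have h1 : ρ.ρ (e * e) x = ρ.ρ e (ρ.ρ e x) := by rw [map_mul]; rfl
    rw [he] at h1
    exact h1.symm
  have hpW : ∀ w ∈ W, p w ∈ W := h e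
  -- the subrepresentation
  have hs : rk (subRp ρ W h) e = Module.finrank k (W.map p) := by
    show Module.finrank k (LinearMap.range (p.restrict hpW)) = _
    have h1 : (LinearMap.range (p.restrict hpW)).map W.subtype = W.map p := by
      ext x
      constructor
      · rintro ⟨y, ⟨w, rfl⟩, rfl⟩
        exact ⟨w.1, w.2, rfl⟩
      · rintro ⟨w, hw, rfl⟩
        exact ⟨p.restrict hpW ⟨w, hw⟩, ⟨⟨w, hw⟩, rfl⟩, rfl⟩
    rw [← Submodule.finrank_map_subtype_eq W (LinearMap.range (p.restrict hpW)), h1]
  have hWE : W.map p = LinearMap.range p ⊓ W := by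
    ext x
    constructor
    · rintro ⟨w, hw, rfl⟩
      exact ⟨⟨w, rfl⟩, hpW w hw⟩
    · rintro ⟨⟨y, rfl⟩, hx⟩
      exact ⟨p y, hx, hpp y⟩
  have hq : rk (quRp ρ W h) e = Module.finrank k ((LinearMap.range p).map W.mkQ) := by
    show Module.finrank k (LinearMap.range (W.mapQ W p (fun w hw => hpW w hw))) = _
    have h1 : LinearMap.range (W.mapQ W p (fun w hw => hpW w hw)) =
        (LinearMap.range p).map W.mkQ := by
      ext x
      constructor
      · rintro ⟨y, rfl⟩
        obtain ⟨z, rfl⟩ := W.mkQ_surjective y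
        exact ⟨p z, ⟨z, rfl⟩, rfl⟩
      · rintro ⟨y, ⟨z, rfl⟩, rfl⟩
        exact ⟨W.mkQ z, rfl⟩
    rw [h1]
  have h1 := LinearMap.finrank_range_add_finrank_ker (W.mkQ.domRestrict (LinearMap.range p))
  have h2 : LinearMap.range (W.mkQ.domRestrict (LinearMap.range p)) =
      (LinearMap.range p).map W.mkQ := LinearMap.range_domRestrict _ _
  have h3 : Module.finrank k (LinearMap.ker (W.mkQ.domRestrict (LinearMap.range p))) =
      Module.finrank k ((LinearMap.range p ⊓ W : Submodule k M)) := by
    have h5 : (LinearMap.ker (W.mkQ.domRestrict (LinearMap.range p))).map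
        (LinearMap.range p).subtype = LinearMap.range p ⊓ W := by
      ext x
      constructor
      · rintro ⟨y, hy, rfl⟩
        refine ⟨y.2, ?_⟩
        have h4 : W.mkQ y.1 = 0 := hy
        rwa [Submodule.mkQ_apply, Submodule.Quotient.mk_eq_zero] at h4
      · rintro ⟨hx1, hx2⟩
        refine ⟨⟨x, hx1⟩, ?_, rfl⟩
        show W.mkQ x = 0
        rwa [Submodule.mkQ_apply, Submodule.Quotient.mk_eq_zero]
    rw [← Submodule.finrank_map_subtype_eq (LinearMap.range p)
      (LinearMap.ker (W.mkQ.domRestrict (LinearMap.range p))), h5]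
  rw [hs, hWE, hq, ← h3, ← h2, add_comm, h1]
  rfl

theorem mul (hsim : SimStmt) (hhad : HadStmt) (hrad : RadStmt) (hinv : InvStmt) : MulStmt := by
  intro R A I k ι M _ _ _ _ _ _ _ _ _ _ c n S ρ hS
  classical
  obtain ⟨d, hd⟩ : ∃ d, Module.finrank k M = d := ⟨_, rfl⟩
  induction d using Nat.strong_induction_on generalizing M with
  | _ d ih =>
    rcases subsingleton_or_nontrivial M with hM | hM
    · refine ⟨0, ⟨fun N _ _ _ ν hν => ?_, fun e he => ?_⟩⟩
      · have h1 : B2.hd ρ ν = 0 := by
          unfold B2.hd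
          have : Subsingleton (Hm ρ ν) := by
            refine ⟨fun f g => ?_⟩
            apply Subtype.ext
            ext x
            rw [Subsingleton.elim x 0, map_zero, map_zero]
          exact Module.finrank_zero_of_subsingleton
        simp [h1]
      · have h1 : rk ρ e = 0 := by
          unfold rk
          exact Module.finrank_zero_of_subsingleton
        simp [h1]
    · obtain ⟨W, h, hirr⟩ := hsim R A k M ρ hM
      obtain ⟨i, hi⟩ := hS W (subRp ρ W h) hirr
      have hW : W ≠ ⊥ := by
        rintro rfl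
        exact (not_subsingleton_iff_nontrivial.2 hirr.1) inferInstance
      have hlt : Module.finrank k (M ⧸ W) < d := by
        rw [← hd, Submodule.finrank_quotient]
        have h1 : 0 < Module.finrank k W := by
          have := hirr.1
          exact Module.finrank_pos
        have h2 : Module.finrank k W ≤ Module.finrank k M := Submodule.finrank_le W
        omega
      obtain ⟨m', hm'⟩ := ih _ hlt (M ⧸ W) (quRp ρ W h) rfl
      refine ⟨m' + Pi.single i 1, ⟨fun N _ _ _ ν hν => ?_, fun e he => ?_⟩⟩
      · obtain ⟨-, h1, -⟩ := hinv R A k W (Fin (n i) → k) N I (subRp ρ W h) (S i) ν hi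
        rw [hhad R A I k M N c ρ ν W h hν, h1, hm'.hom N ν hν]
        simp only [Pi.add_apply, add_mul, Finset.sum_add_distrib, Pi.single_apply, ite_mul,
          one_mul, zero_mul, Finset.sum_ite_eq', Finset.mem_univ, if_true]
        ring
      · obtain ⟨-, -, -, h1, -⟩ := hinv R A k W (Fin (n i) → k) W I (subRp ρ W h) (S i)
          (subRp ρ W h) hi
        rw [hrad R A k M ρ W h e he, h1, hm'.rnk e he]
        simp only [Pi.add_apply, add_mul, Finset.sum_add_distrib, Pi.single_apply, ite_mul,
          one_mul, zero_mul, Finset.sum_ite_eq', Finset.mem_univ, if_true]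
        ring

end Pool.Agent.PFC.B2.H72
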